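import Pool.Agent.Y862.SQ.Stm2
import Pool.Agent.Y862.JL.Stm
import Pool.Agent.H373R2.T7.Fund

set_option autoImplicit false

/-!
# Project SQ, second part: the joint Poisson law, squares excluded
-/

namespace Pool.Agent.Y65.SQ2

open Finset Pool.Agent.Y862.SQ Pool.Agent.H373R2.T7

/-- the value of the polynomial `g` at `n` has no prime factor up to `y` -/
def Gd (y n : ℕ) (g : ℕ × ℤ) : Prop := ∀ p ∈ pr y, ¬ (p : ℤ) ∣ ((n : ℤ) + g.1) ^ 2 + g.2

open Classical in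
lemma Nj_eq (y a : ℕ) (c : ℤ) (L n : ℕ) :
    Nj y a c L n = ((Wn a c L).filter (fun g => Gd y n g)).card := by
  unfold Nj Wn
  rw [filter_image, card_image_of_injective _ (fun s t h => (Prod.mk.inj h).2), filter_filter]
  congr 1
  ext s
  simp only [mem_filter]
  exact Iff.rfl

open Classical in
lemma mom {k : ℕ} (y : ℕ) (Om : Finset ℕ) (a : Fin k → ℕ) (c : Fin k → ℤ) (L r : Fin k → ℕ) :
    ∑ n ∈ Om, ∏ j, ((Nj y (a j) (c j) (L j) n).choose (r j) : ℝ) =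
      ∑ H ∈ fam a c L r, ((Om.filter (fun n => ∀ g ∈ un H, Gd y n g)).card : ℝ) := by
  have h1 : ∀ H ∈ fam a c L r, ((Om.filter (fun n => ∀ g ∈ un H, Gd y n g)).card : ℝ) =
      ∑ n ∈ Om, if (∀ g ∈ un H, Gd y n g) then (1 : ℝ) else 0 := by
    intro H _
    rw [Finset.sum_boole]
  rw [Finset.sum_congr rfl h1, Finset.sum_comm]
  apply Finset.sum_congr rfl
  intro n _
  rw [Finset.sum_boole, ← Nat.cast_prod]
  congr 1
  have h2 : ∀ j, (Nj y (a j) (c j) (L j) n).choose (r j) =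
      (powersetCard (r j) ((Wn (a j) (c j) (L j)).filter (fun g => Gd y n g))).card := by
    intro j
    rw [card_powersetCard, ← Nj_eq]
  rw [Finset.prod_congr rfl (fun j _ => h2 j), ← Fintype.card_piFinset]
  congr 1
  ext H
  simp only [Fintype.mem_piFinset, mem_filter, mem_powersetCard, fam, un, mem_biUnion, mem_univ,
    true_and]
  constructor
  · intro h
    refine ⟨fun j => ⟨fun g hg => (mem_filter.1 ((h j).1 hg)).1, (h j).2⟩, ?_⟩
    rintro g ⟨j, hg⟩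
    exact (mem_filter.1 ((h j).1 hg)).2
  · rintro ⟨h, h'⟩ j
    exact ⟨fun g hg => mem_filter.2 ⟨(h j).1 hg, h' g ⟨j, hg⟩⟩, (h j).2⟩

/-- the system of classes of a set of polynomials, shifted -/
def QZ (Z : ℕ) (H : Finset (ℕ × ℤ)) (p n : ℕ) : Prop :=
  ∃ g ∈ H, (p : ℤ) ∣ (((n + Z : ℕ) : ℤ) + g.1) ^ 2 + g.2

lemma dvd_per (p n : ℕ) (t s : ℤ) :
    (p : ℤ) ∣ ((n : ℤ) + t) ^ 2 + s ↔ (p : ℤ) ∣ (((n % p : ℕ) : ℤ) + t) ^ 2 + s := by
  have h : (n : ℤ) = ((n % p : ℕ) : ℤ) + p * ((n / p : ℕ) : ℤ) := by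
    exact_mod_cast (Nat.mod_add_div n p).symm
  obtain ⟨m, hm⟩ : ∃ m : ℤ, m = ((n % p : ℕ) : ℤ) := ⟨_, rfl⟩
  obtain ⟨q, hq⟩ : ∃ q : ℤ, q = ((n / p : ℕ) : ℤ) := ⟨_, rfl⟩
  rw [← hm, ← hq] at h
  rw [← hm, h]
  have e : (m + p * q + t) ^ 2 + s = ((m + t) ^ 2 + s) + p * (q * (2 * (m + t) + p * q)) := by ring
  rw [e]
  exact ⟨fun hh => (dvd_add_left (dvd_mul_right _ _)).1 hh,
    fun hh => dvd_add hh (dvd_mul_right _ _)⟩

lemma QZ_per (Z : ℕ) (H : Finset (ℕ × ℤ)) (p n : ℕ) : QZ Z H p n ↔ QZ Z H p (n % p) := by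
  unfold QZ
  refine exists_congr fun g => and_congr_right fun _ => ?_
  have h1 := dvd_per p n (Z + g.1) g.2
  push_cast
  rw [show ((n : ℤ) + Z + g.1) = (n : ℤ) + (Z + g.1) by ring, h1]
  push_cast
  rw [show ((n : ℤ) % p + Z + g.1) = (n : ℤ) % p + (Z + g.1) by ring]

open Classical in
lemma roots_le (p : ℕ) (hp : p.Prime) (Z : ℕ) (g : ℕ × ℤ) :
    ((range p).filter (fun n : ℕ => (p : ℤ) ∣ (((n + Z : ℕ) : ℤ) + g.1) ^ 2 + g.2)).card ≤ 2 := by
  by_contra hcon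
  push Not at hcon
  obtain ⟨x, hx, y, hy, z, hz, hxy, hxz, hyz⟩ := Finset.two_lt_card.1 hcon
  rw [mem_filter, mem_range] at hx hy hz
  have hpI : Prime (p : ℤ) := Nat.prime_iff_prime_int.1 hp
  have key : ∀ u v : ℕ, u < p → v < p → u ≠ v → ¬ (p : ℤ) ∣ (u : ℤ) - v := by
    intro u v hu hv huv hd
    have h1 : |(u : ℤ) - v| < p := by
      rw [abs_lt]; constructor <;> omega
    have h2 := Int.eq_zero_of_abs_lt_dvd hd h1
    omega
  have key2 : ∀ u v : ℕ, u < p → v < p → u ≠ v →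
      (p : ℤ) ∣ (((u + Z : ℕ) : ℤ) + g.1) ^ 2 + g.2 → (p : ℤ) ∣ (((v + Z : ℕ) : ℤ) + g.1) ^ 2 + g.2 →
      (p : ℤ) ∣ (u : ℤ) + v + 2 * (Z + g.1) := by
    intro u v hu hv huv h1 h2
    have h3 := dvd_sub h1 h2
    have e : (((u + Z : ℕ) : ℤ) + g.1) ^ 2 + g.2 - ((((v + Z : ℕ) : ℤ) + g.1) ^ 2 + g.2) =
        ((u : ℤ) - v) * ((u : ℤ) + v + 2 * (Z + g.1)) := by push_cast; ring
    rw [e] at h3
    exact (hpI.dvd_or_dvd h3).resolve_left (key u v hu hv huv)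
  have h1 := key2 x y hx.1 hy.1 hxy hx.2 hy.2
  have h2 := key2 x z hx.1 hz.1 hxz hx.2 hz.2
  have h3 := dvd_sub h1 h2
  have e : (x : ℤ) + y + 2 * (Z + g.1) - ((x : ℤ) + z + 2 * (Z + g.1)) = (y : ℤ) - z := by ring
  rw [e] at h3
  exact key y z hy.1 hz.1 hyz h3

lemma nuB_QZ_le (p : ℕ) (hp : p.Prime) (Z : ℕ) (H : Finset (ℕ × ℤ)) :
    nuB (QZ Z H) p ≤ 2 * H.card := by
  classical
  unfold nuB
  have hsub : ((range p).filter (fun n : ℕ => QZ Z H p n)) ⊆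
      H.biUnion (fun g => (range p).filter
        (fun n : ℕ => (p : ℤ) ∣ (((n + Z : ℕ) : ℤ) + g.1) ^ 2 + g.2)) := by
    intro n hn
    rw [mem_filter] at hn
    obtain ⟨g, hg, hd⟩ := hn.2
    exact mem_biUnion.2 ⟨g, hg, mem_filter.2 ⟨hn.1, hd⟩⟩
  have h1 := (card_le_card hsub).trans (card_biUnion_le_card_mul _ _ 2 (fun g _ => by
    convert roots_le p hp Z g))
  rw [mul_comm]
  convert h1

lemma perB_QZ (Z : ℕ) (H : Finset (ℕ × ℤ)) (C : ℕ) (hC : 2 * H.card ≤ C) : PerB (QZ Z H) C :=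
  ⟨fun p n => QZ_per Z H p n, fun p hp => (nuB_QZ_le p hp Z H).trans hC⟩

lemma nuB_QZ (p Z : ℕ) (H : Finset (ℕ × ℤ)) : nuB (QZ Z H) p = rP H p := by
  classical
  obtain ⟨P, hP⟩ : ∃ P : ℕ → Prop, P = fun r : ℕ => ∃ g ∈ H, (p : ℤ) ∣ ((r : ℤ) + g.1) ^ 2 + g.2 :=
    ⟨_, rfl⟩
  have hper : Function.Periodic P p := by
    intro n
    rw [hP]
    refine propext (exists_congr fun g => and_congr_right fun _ => ?_)
    rw [dvd_per p (n + p), dvd_per p n, Nat.add_mod_right]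
  have h1 := Nat.filter_Ico_card_eq_of_periodic Z p P hper
  have h2 := Nat.filter_Ico_card_eq_of_periodic 0 p P hper
  rw [← h2] at h1
  have e1 : nuB (QZ Z H) p = ((Ico Z (Z + p)).filter P).card := by
    unfold nuB
    have e2 : (Ico Z (Z + p)).filter P = ((range p).filter (fun n => QZ Z H p n)).map
        (addRightEmbedding Z) := by
      ext m
      simp only [mem_filter, mem_Ico, mem_map, mem_range, addRightEmbedding_apply, QZ]
      constructor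
      · rintro ⟨⟨h3, h4⟩, h5⟩
        refine ⟨m - Z, ⟨by omega, ?_⟩, by omega⟩
        rw [hP] at h5
        rw [Nat.sub_add_cancel h3]
        exact h5
      · rintro ⟨n, ⟨h3, h4⟩, rfl⟩
        refine ⟨⟨by omega, by omega⟩, ?_⟩
        rw [hP]
        exact h4
    rw [e2, card_map]
  rw [e1, h1, zero_add]
  unfold rP
  rw [← range_eq_Ico]
  subst hP
  congr

open Classical in
lemma cnt_eq (y Z Y : ℕ) (H : Finset (ℕ × ℤ)) :
    ((Ioc Z (Z + Y)).filter (fun n => ∀ g ∈ H, Gd y n g)).card =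
      ((Icc 1 Y).filter (fun n : ℕ => ∀ p ∈ pz y, ¬ QZ Z H p n)).card := by
  have e : (Ioc Z (Z + Y)).filter (fun n => ∀ g ∈ H, Gd y n g) =
      ((Icc 1 Y).filter (fun n : ℕ => ∀ p ∈ pz y, ¬ QZ Z H p n)).map (addRightEmbedding Z) := by
    ext m
    simp only [mem_filter, mem_Ioc, mem_map, mem_Icc, addRightEmbedding_apply]
    constructor
    · rintro ⟨⟨h1, h2⟩, h3⟩
      refine ⟨m - Z, ⟨⟨by omega, by omega⟩, ?_⟩, by omega⟩
      rintro p hp ⟨g, hg, hd⟩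
      rw [Nat.sub_add_cancel h1.le] at hd
      exact h3 g hg p hp hd
    · rintro ⟨n, ⟨⟨h1, h2⟩, h3⟩, rfl⟩
      refine ⟨⟨by omega, by omega⟩, ?_⟩
      intro g hg p hp hd
      exact h3 p hp ⟨g, hg, hd⟩
  rw [e, card_map]

lemma VP_nonneg (H : Finset (ℕ × ℤ)) (y : ℕ) : 0 ≤ VP H y := by
  unfold VP
  apply prod_nonneg
  intro p hp
  have hp1 : p.Prime := (mem_filter.1 hp).2
  have hp0 : (0 : ℝ) < p := by exact_mod_cast hp1.pos
  have h1 : rP H p ≤ p := by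
    unfold rP
    exact (card_filter_le _ _).trans (by simp)
  have h2 : (rP H p : ℝ) ≤ p := by exact_mod_cast h1
  have h3 : (rP H p : ℝ) / p ≤ 1 := (div_le_one hp0).2 h2
  linarith

lemma V1_nonneg (y : ℕ) : 0 ≤ V1 y := by
  unfold V1
  apply prod_nonneg
  intro p hp
  have hp1 : p.Prime := (mem_filter.1 hp).2
  have hp0 : (1 : ℝ) ≤ p := by exact_mod_cast hp1.one_le
  have h3 : 1 / (p : ℝ) ≤ 1 := by
    rw [div_le_one (by linarith)]
    exact hp0
  linarith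

lemma V1_le_one (y : ℕ) : V1 y ≤ 1 := by
  unfold V1
  apply prod_le_one
  · intro p hp
    have hp1 : p.Prime := (mem_filter.1 hp).2
    have hp0 : (1 : ℝ) ≤ p := by exact_mod_cast hp1.one_le
    have h3 : 1 / (p : ℝ) ≤ 1 := by
      rw [div_le_one (by linarith)]
      exact hp0
    linarith
  · intro p _
    have : (0 : ℝ) ≤ 1 / p := by positivity
    linarith

lemma un_card {k : ℕ} (a : Fin k → ℕ) (c : Fin k → ℤ) (L r : Fin k → ℕ)
    (H : Fin k → Finset (ℕ × ℤ)) (hH : H ∈ fam a c L r) : (un H).card ≤ ∑ j, r j := by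
  classical
  unfold un
  refine card_biUnion_le.trans (sum_le_sum fun j _ => ?_)
  unfold fam at hH
  rw [Fintype.mem_piFinset] at hH
  exact (mem_powersetCard.1 (hH j)).2.le

lemma Wn_card (a : ℕ) (c : ℤ) (L : ℕ) : (Wn a c L).card ≤ L := by
  classical
  unfold Wn
  refine card_image_le.trans ((card_filter_le _ _).trans ?_)
  rw [Int.card_Ioc]
  simp

lemma fam_card {k : ℕ} (a : Fin k → ℕ) (c : Fin k → ℤ) (L r : Fin k → ℕ) (M : ℕ)
    (hL : ∀ j, L j ≤ 2 * M) : (fam a c L r).card ≤ (2 * M) ^ ∑ j, r j := by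
  classical
  unfold fam
  rw [Fintype.card_piFinset, ← prod_pow_eq_pow_sum]
  apply prod_le_prod' 
  intro j _
  rw [card_powersetCard]
  exact (Nat.choose_le_pow _ _).trans (Nat.pow_le_pow_left ((Wn_card _ _ _).trans (hL j)) _)

theorem t_LAWJ (h0 : Pool.Agent.Y862.JL.S_JLAW) (h1 : S_AVGZ) : S_LAWJ := by
  classical
  intro k x0 ε hx0 hε
  obtain ⟨R, η, hη, htv⟩ := h0 k (2 * x0) ε (by linarith) hε
  obtain ⟨X1, hX1⟩ : ∃ X1 : ℝ, X1 = (1 + 2 * x0) ^ (k * R) := ⟨_, rfl⟩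
  have hX1pos : 1 ≤ X1 := by rw [hX1]; exact one_le_pow₀ (by linarith)
  obtain ⟨η1, hη1⟩ : ∃ η1 : ℝ, η1 = min 1 (η / (4 * X1)) := ⟨_, rfl⟩
  have hη10 : 0 < η1 := by rw [hη1]; positivity
  have hη11 : η1 ≤ 1 := by rw [hη1]; exact min_le_left _ _
  have hη12 : η1 * X1 ≤ η / 4 := by
    have : η1 ≤ η / (4 * X1) := by rw [hη1]; exact min_le_right _ _
    rw [le_div_iff₀ (by positivity)] at this
    linarith
  obtain ⟨K1, y2, hK1, hfund⟩ := sys_fund (2 * (k * R) + 1) (by omega) η1 hη10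
  obtain ⟨w, M1, havg⟩ := h1 k R η1 hη10
  obtain ⟨y1, hy1⟩ : ∃ y1 : ℕ, (4 / η) ^ 4 ≤ y1 := exists_nat_ge _
  refine ⟨K1 + 1, y1 + y2 + w + 1, M1 + 2, 8 * (k * R), ?_⟩
  intro Z Y y M hy hyY hM hMR hx a c L hW A
  obtain ⟨v, hv⟩ : ∃ v, v = V1 y := ⟨_, rfl⟩
  have hv0 : 0 ≤ v := by rw [hv]; exact V1_nonneg y
  rw [← hv] at hx ⊢
  have hy1' : 1 ≤ y := by omega
  have hyY' : y ≤ Y := by
    calc y = y ^ 1 := (pow_one y).symm
      _ ≤ y ^ (K1 + 1) := Nat.pow_le_pow_right hy1' (by omega)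
      _ ≤ Y := hyY
  have hY1 : (4 / η) ^ 4 ≤ (Y : ℝ) := hy1.trans (by exact_mod_cast (by omega : y1 ≤ Y))
  have hYpos : (0 : ℝ) < Y := lt_of_lt_of_le (by positivity) hY1
  have hs4 : 4 / η ≤ √(√(Y : ℝ)) := by
    apply Real.le_sqrt_of_sq_le
    apply Real.le_sqrt_of_sq_le
    calc ((4 / η) ^ 2) ^ 2 = (4 / η) ^ 4 := by ring
      _ ≤ (Y : ℝ) := hY1
  have hLM : ∀ j, L j ≤ 2 * M := by
    intro j
    have := hW.1 j
    omega
  have hM4 : ((2 * M : ℕ) : ℝ) ^ (k * R) ≤ √(√(Y : ℝ)) := by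
    apply Real.le_sqrt_of_sq_le
    apply Real.le_sqrt_of_sq_le
    have h2 : (2 * M) ^ (4 * (k * R)) ≤ M ^ (8 * (k * R)) := by
      calc (2 * M) ^ (4 * (k * R)) ≤ (M * M) ^ (4 * (k * R)) :=
            Nat.pow_le_pow_left (Nat.mul_le_mul_right _ (by omega)) _
        _ = M ^ (8 * (k * R)) := by
            rw [← pow_two, ← pow_mul]
            congr 1
            ring
    calc ((((2 * M : ℕ) : ℝ) ^ (k * R)) ^ 2) ^ 2 = (((2 * M) ^ (4 * (k * R)) : ℕ) : ℝ) := by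
          push_cast
          rw [← pow_mul, ← pow_mul]
          congr 1
          ring
      _ ≤ Y := by exact_mod_cast h2.trans hMR
  have hTY : ((2 * M : ℕ) : ℝ) ^ (k * R) * √(Y : ℝ) ≤ η / 4 * Y := by
    have e1 : √(√(Y : ℝ)) * √(√(Y : ℝ)) = √(Y : ℝ) := Real.mul_self_sqrt (Real.sqrt_nonneg _)
    have e2 : √(Y : ℝ) * √(Y : ℝ) = Y := Real.mul_self_sqrt hYpos.le
    have h1 : ((2 * M : ℕ) : ℝ) ^ (k * R) * (4 / η) ≤ √(Y : ℝ) := by
      rw [← e1]
      exact mul_le_mul hM4 hs4 (by positivity) (Real.sqrt_nonneg _)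
    calc ((2 * M : ℕ) : ℝ) ^ (k * R) * √(Y : ℝ) =
          η / 4 * (((2 * M : ℕ) : ℝ) ^ (k * R) * (4 / η)) * √(Y : ℝ) := by
          field_simp
      _ ≤ η / 4 * √(Y : ℝ) * √(Y : ℝ) := by gcongr
      _ = η / 4 * Y := by rw [mul_assoc, e2]
  have hcard : ((Ioc Z (Z + Y)).card : ℝ) = Y := by
    rw [Nat.card_Ioc, Nat.add_sub_cancel_left]
  have hLv : ∀ j, 0 ≤ (L j : ℝ) * v ∧ (L j : ℝ) * v ≤ 2 * x0 := by
    intro j
    refine ⟨mul_nonneg (Nat.cast_nonneg _) hv0, ?_⟩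
    have h2 : (L j : ℝ) ≤ 2 * M := by exact_mod_cast hLM j
    calc (L j : ℝ) * v ≤ 2 * M * v := mul_le_mul_of_nonneg_right h2 hv0
      _ = 2 * (M * v) := by ring
      _ ≤ 2 * x0 := by linarith
  have hmain := htv (Ioc Z (Z + Y)) (fun j n => Nj y (a j) (c j) (L j) n) (fun j => (L j : ℝ) * v)
    hLv (by
    intro r hr
    rw [hcard, mom]
    have hK : ∑ j, r j ≤ k * R := by
      calc ∑ j, r j ≤ ∑ _j : Fin k, R := sum_le_sum fun j _ => (hr j).le
        _ = k * R := by simp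
    obtain ⟨S, hS⟩ : ∃ S, S = ∑ H ∈ fam a c L r, VP (un H) y := ⟨_, rfl⟩
    obtain ⟨P, hP⟩ : ∃ P : ℝ, P = ∏ j, (((L j : ℝ) * v) ^ r j / (r j).factorial) := ⟨_, rfl⟩
    have g1 := havg M (by omega) y (by omega) a c L r hW hr
    rw [← hv, ← hS, ← hP] at g1
    rw [← hP]
    have hMv : 0 ≤ (M : ℝ) * v := mul_nonneg (Nat.cast_nonneg _) hv0
    have g2 : ((M : ℝ) * v) ^ (∑ j, r j) ≤ X1 := by
      rw [hX1]
      calc ((M : ℝ) * v) ^ (∑ j, r j) ≤ (1 + 2 * x0) ^ (∑ j, r j) :=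
            pow_le_pow_left₀ hMv (by linarith) _
        _ ≤ (1 + 2 * x0) ^ (k * R) := pow_le_pow_right₀ (by linarith) hK
    have g3 : P ≤ X1 := by
      rw [hP, hX1]
      calc ∏ j, (((L j : ℝ) * v) ^ r j / (r j).factorial) ≤ ∏ j, (1 + 2 * x0) ^ r j := by
            apply prod_le_prod
            · intro j _
              have := (hLv j).1
              positivity
            · intro j _
              have hf1 : (1 : ℝ) ≤ (r j).factorial := by exact_mod_cast Nat.factorial_pos (r j)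
              have h5 : 0 ≤ ((L j : ℝ) * v) ^ r j := pow_nonneg (hLv j).1 _
              exact (div_le_self h5 hf1).trans (pow_le_pow_left₀ (hLv j).1
                (by linarith [(hLv j).2]) _)
        _ = (1 + 2 * x0) ^ (∑ j, r j) := prod_pow_eq_pow_sum _ _ _
        _ ≤ (1 + 2 * x0) ^ (k * R) := pow_le_pow_right₀ (by linarith) hK
    have g4 : |S - P| ≤ η / 4 := by
      refine g1.trans (le_trans ?_ hη12)
      exact mul_le_mul_of_nonneg_left g2 hη10.le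
    have g5 : S ≤ 2 * X1 := by
      have := (abs_le.1 g1).2
      have h6 : η1 * ((M : ℝ) * v) ^ (∑ j, r j) ≤ 1 * X1 :=
        mul_le_mul hη11 g2 (by positivity) zero_le_one
      linarith
    have g6 : |∑ H ∈ fam a c L r,
        (((Ioc Z (Z + Y)).filter (fun n => ∀ g ∈ un H, Gd y n g)).card : ℝ) - Y * S| ≤
        η1 * (Y * S) + (2 * M : ℕ) ^ (k * R) * √(Y : ℝ) := by
      have e : Y * S = ∑ H ∈ fam a c L r, (Y : ℝ) * VP (un H) y := by
        rw [hS, Finset.mul_sum]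
      rw [e, ← Finset.sum_sub_distrib]
      refine (Finset.abs_sum_le_sum_abs _ _).trans ?_
      have h2 : ∀ H ∈ fam a c L r,
          |(((Ioc Z (Z + Y)).filter (fun n => ∀ g ∈ un H, Gd y n g)).card : ℝ) -
            Y * VP (un H) y| ≤ η1 * (Y * VP (un H) y) + √(Y : ℝ) := by
        intro H hH
        have hc := un_card a c L r H hH
        have h3 := hfund Y y (by omega)
          ((Nat.pow_le_pow_right hy1' (by omega)).trans hyY) (QZ Z (un H))
          (perB_QZ Z (un H) _ (by omega)) Y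
        have e1 : ∏ p ∈ pz y, (1 - (nuB (QZ Z (un H)) p : ℝ) / p) = VP (un H) y := by
          unfold VP
          apply prod_congr rfl
          intro p _
          rw [nuB_QZ]
        rw [e1] at h3
        rw [cnt_eq]
        convert h3
      refine (Finset.sum_le_sum h2).trans ?_
      rw [Finset.sum_add_distrib, ← Finset.mul_sum, Finset.sum_const, nsmul_eq_mul]
      have h3 : ((fam a c L r).card : ℝ) ≤ ((2 * M : ℕ) : ℝ) ^ (k * R) := by
        have h4 : (fam a c L r).card ≤ (2 * M) ^ (k * R) :=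
          (fam_card a c L r M hLM).trans (Nat.pow_le_pow_right (by omega) hK)
        exact_mod_cast h4
      have h4 := mul_le_mul_of_nonneg_right h3 (Real.sqrt_nonneg (Y : ℝ))
      linarith
    have g7 : |Y * S - Y * P| ≤ η / 4 * Y := by
      rw [← mul_sub, abs_mul, abs_of_nonneg hYpos.le, mul_comm]
      exact mul_le_mul_of_nonneg_right g4 hYpos.le
    have g8 : η1 * (Y * S) ≤ η / 2 * Y := by
      calc η1 * (Y * S) ≤ η1 * (Y * (2 * X1)) := by gcongr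
        _ = 2 * (η1 * X1) * Y := by ring
        _ ≤ 2 * (η / 4) * Y := by gcongr
        _ = η / 2 * Y := by ring
    have g9 := abs_sub_le (∑ H ∈ fam a c L r,
        (((Ioc Z (Z + Y)).filter (fun n => ∀ g ∈ un H, Gd y n g)).card : ℝ)) (Y * S) (Y * P)
    linarith) A
  rw [hcard] at hmain
  exact hmain

end Pool.Agent.Y65.SQ2
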